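import Pool.Agent.W586.GZ.Stm

/-!
# The basis of the model of `c_0 + Z` is shrinking (part SHRX of project GZ)
-/

set_option autoImplicit false
open Filter Topology

namespace Pool.Agent.W250.GZShrX

open Pool.Agent.W586.GZ

theorem main : S_SHRW → S_SHRX := by
  classical
  intro h P X _ _ _ e e' hM g ε hε
  have hyp : ∀ (s : Finset ℕ) (x : ℕ → ℝ), (∀ n, x n ≠ 0 → n ∈ s) → NB (WX P) x 1 →
      |∑ n ∈ s, (fun n => g (e n)) n * x n| ≤ ‖g‖ := by
    intro s x hs hx
    have hz : ‖∑ n ∈ s, x n • e n‖ ≤ 1 := by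
      rw [hM.nrm _ 1 zero_le_one]
      have : (fun i => e' i (∑ n ∈ s, x n • e n)) = x := by
        funext i
        rw [map_sum]
        simp only [map_smul, hM.bio, smul_eq_mul, mul_ite, mul_one, mul_zero]
        rw [Finset.sum_ite_eq]
        split_ifs with hi
        · rfl
        · by_contra hc
          exact hi (hs i (Ne.symm hc))
      rw [this]; exact hx
    have hg : ∑ n ∈ s, (fun n => g (e n)) n * x n = g (∑ n ∈ s, x n • e n) := by
      rw [map_sum]
      refine Finset.sum_congr rfl fun n _ => ?_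
      simp [mul_comm]
    rw [hg, ← Real.norm_eq_abs]
    calc ‖g (∑ n ∈ s, x n • e n)‖ ≤ ‖g‖ * ‖∑ n ∈ s, x n • e n‖ := g.le_opNorm _
      _ ≤ ‖g‖ * 1 := mul_le_mul_of_nonneg_left hz (norm_nonneg _)
      _ = ‖g‖ := mul_one _
  obtain ⟨M, hMM⟩ := h P (fun n => g (e n)) ‖g‖ hyp ε hε
  refine ⟨M, fun x hx => ?_⟩
  rcases eq_or_lt_of_le (norm_nonneg x) with h0 | h0
  · have : x = 0 := norm_eq_zero.1 h0.symm
    simp [this]
  set r := ‖x‖ with hr
  have hNB : NB (WX P) (fun n => e' n x) r := (hM.nrm x r h0.le).1 le_rfl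
  have key : ∀ N : ℕ, |g (∑ n ∈ Finset.range N, e' n x • e n)| ≤ ε * r := by
    intro N
    set y : ℕ → ℝ := fun n => if n < N then (1 / r) * e' n x else 0 with hy
    have hy1 : NB (WX P) y 1 := by
      have h1 := hNB.smul (1 / r)
      have h2 : |1 / r| * r = 1 := by
        rw [abs_of_pos (by positivity)]; field_simp
      rw [h2] at h1
      refine h1.le (WX_idl P) fun i => ?_
      simp only [hy]
      split_ifs
      · exact le_rfl
      · rw [abs_zero]; exact abs_nonneg _
    have hsupp : ∀ n, y n ≠ 0 → n ∈ Finset.Ico M N := by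
      intro n hn
      simp only [hy] at hn
      by_cases h1 : n < N
      · rw [if_pos h1] at hn
        rw [Finset.mem_Ico]
        refine ⟨?_, h1⟩
        by_contra h2
        push Not at h2
        rw [hx n h2, mul_zero] at hn
        exact hn rfl
      · rw [if_neg h1] at hn; exact absurd rfl hn
    have h3 := hMM (Finset.Ico M N) y hsupp (fun n hn => (Finset.mem_Ico.1 hn).1) hy1
    have h4 : g (∑ n ∈ Finset.range N, e' n x • e n) =
        r * ∑ n ∈ Finset.Ico M N, (fun n => g (e n)) n * y n := by
      have h5 : ∑ n ∈ Finset.Ico M N, (fun n => g (e n)) n * y n =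
          ∑ n ∈ Finset.range N, (fun n => g (e n)) n * y n := by
        refine Finset.sum_subset (fun n hn => Finset.mem_range.2 (Finset.mem_Ico.1 hn).2) ?_
        intro n _ hn
        have : y n = 0 := by
          by_contra hc; exact hn (hsupp n hc)
        rw [this, mul_zero]
      rw [h5, map_sum, Finset.mul_sum]
      refine Finset.sum_congr rfl fun n hn => ?_
      simp only [hy, if_pos (Finset.mem_range.1 hn), map_smul, smul_eq_mul]
      field_simp
    rw [h4, abs_mul, abs_of_pos h0, mul_comm]
    exact mul_le_mul_of_nonneg_right h3 h0.le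
  have hlim := (g.continuous.tendsto x).comp (hM.exp x)
  exact le_of_tendsto hlim.abs (Eventually.of_forall key)

end Pool.Agent.W250.GZShrX
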